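import Pool.Agent.Helper33.CW2.Main

/-!
# Commutator width when `G'` acts on `N / N² [N, N]` as a nilpotent group of exponent `2^a`

`gam H n` is the `(n+1)`-st term of the lower central series of the subgroup `H`: `gam H 0 = H`,
`gam H (n+1) = ⁅gam H n, H⁆`.
-/

open scoped commutatorElement

namespace Pool.Agent.Results.MP_178833_al.ExponentWidth

open Pool.Agent.Helper17.CW

universe u

/-- **Main result.** Let `G` be a group with `k` generators, `N` a metabelian normal subgroup
(`N'' = 1`) which contains some term `γ_(m+1)(G')` of the lower central series of `G'`. Let `N²` be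
the subgroup generated by the squares of the elements of `N` (it contains `[N, N]`), and suppose that
`[γ_(c+1)(G'), N] ≤ N²` and `[h^(2^a), n] ∈ N²` for all `h ∈ G'`, `n ∈ N`; i.e. `G'` acts on the
elementary abelian `2`-group `N / N²` through a nilpotent group of class at most `c` and exponent
dividing `2^a` (for instance `γ_(c+1)(G') ≤ N` and `h^(2^a) ∈ N` for all `h ∈ G'`). Then every element
of `G'` is a product of `k² + 5k + (k c(c+1)/2 + 1) k 5^k` commutators, a number which does not depend
on `a`, `m`, `G` and `N`. -/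
theorem result (k m c a : ℕ) {G : Type u} [Group G] (x : Fin k → G)
    (hx : Subgroup.closure (Set.range x) = ⊤) (N : Subgroup G) (hN : N.Normal)
    (hNN : ⁅⁅N, N⁆, ⁅N, N⁆⁆ = ⊥) (hm : gam (commutator G) m ≤ N)
    (hc : ∀ h ∈ gam (commutator G) c, ∀ n ∈ N,
      ⁅h, n⁆ ∈ Subgroup.closure {y | ∃ b ∈ N, y = b ^ 2})
    (ha : ∀ h ∈ commutator G, ∀ n ∈ N,
      ⁅h ^ (2 ^ a), n⁆ ∈ Subgroup.closure {y | ∃ b ∈ N, y = b ^ 2})
    (g : G) (hg : g ∈ commutator G) :
    ∃ p q : Fin (k ^ 2 + 5 * k + (k * (c * (c + 1) / 2) + 1) * (k * 5 ^ k)) → G,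
      g = (List.ofFn fun i => p i * q i * (p i)⁻¹ * (q i)⁻¹).prod :=
  (Pool.Agent.Helper33.CW2.main k m c a x hx N hNN hm hc ha hg).exists_fin

end Pool.Agent.Results.MP_178833_al.ExponentWidth
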