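import Pool.Agent.LGW.MainL

/-!
# Logarithmic commutator width of the free soluble groups of derived length four
-/

namespace Pool.Agent.Results.MP_178833_al.LogWidth

/-- **Main result.** For every `k` there is a constant `C` such that every element `w` of the
commutator subgroup of the free group `F` of rank `k` is, modulo the fourth term `F''''` of the derived
series, a product of `C (1 + log₂ n)` commutators, where `n` is the length of `w` as a reduced word in
the free generators. So in the free soluble group of rank `k` and derived length `4` the commutator
length of the elements of the commutator subgroup is at most logarithmic in their word length. -/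
theorem result (k : ℕ) : ∃ C : ℕ, ∀ w : FreeGroup (Fin k),
    w ∈ derivedSeries (FreeGroup (Fin k)) 1 →
    ∃ a b : Fin (C * (1 + Nat.log 2 w.norm)) → FreeGroup (Fin k),
      w * ((List.ofFn fun i => a i * b i * (a i)⁻¹ * (b i)⁻¹).prod)⁻¹ ∈
        derivedSeries (FreeGroup (Fin k)) 4 :=
  Pool.Agent.LGW.main_free k

end Pool.Agent.Results.MP_178833_al.LogWidth
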