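import Pool.Agent.OW.Main

/-!
# Commutator width of soluble groups in which the action on the derived factors has no 2-unipotent part
-/

open scoped commutatorElement

namespace Pool.Agent.Results.MP_178833_al.OddActionWidth

universe u

/-- **Main result.** Let `G` be a group with `k` generators and `G^(d) = 1`. Suppose that for all
`1 ≤ j < i ≤ d - 2`, all `h ∈ G^(j)` and all `n ∈ G^(i)` there is an odd number of elements
`a₁, ..., a_s` of `G^(j)` such that the product of the elements `aₜ [h, n] aₜ⁻¹` lies in the subgroup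
generated by the squares of the elements of `G^(i)` and by `[G^(i), G^(j+1)]`. (If `m` is odd and
`[h^m, n]` is a product of squares of elements of `G^(i)`, this holds for `aₜ = h^(t-1)`, `t ≤ m`.) Then
every element of `G'` is a product of `k² + 2k + 4k(d-3) + 3k(d-3)(d-2)/2` commutators (with truncated
subtraction). -/
theorem result (k d : ℕ) {G : Type u} [Group G] (x : Fin k → G)
    (hx : Subgroup.closure (Set.range x) = ⊤) (hd : derivedSeries G d = ⊥)
    (hyp : ∀ i j : ℕ, 1 ≤ j → j < i → i + 2 ≤ d →
      ∀ h ∈ derivedSeries G j, ∀ n ∈ derivedSeries G i,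
        ∃ l : List G, Odd l.length ∧ (∀ a ∈ l, a ∈ derivedSeries G j) ∧
          (l.map fun a => a * ⁅h, n⁆ * a⁻¹).prod ∈
            Subgroup.closure {y | ∃ b ∈ derivedSeries G i, y = b ^ 2} ⊔
              ⁅derivedSeries G i, derivedSeries G (j + 1)⁆)
    (g : G) (hg : g ∈ commutator G) :
    ∃ p q : Fin (k ^ 2 + 2 * k + 4 * k * (d - 3) + 3 * k * ((d - 3) * (d - 2) / 2)) → G,
      g = (List.ofFn fun i => p i * q i * (p i)⁻¹ * (q i)⁻¹).prod := by
  refine Pool.Agent.Helper26.CW.IsProdComm.exists_fin ?_
  rcases Nat.lt_or_ge d 3 with h | h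
  · have h1 : derivedSeries G (0 + 3) = ⊥ := by
      rw [eq_bot_iff, ← hd]
      exact derivedSeries_antitone G (by omega)
    have h2 := Pool.Agent.OW.main k 0 G x hx h1 (fun i j h3 h4 h5 => absurd h5 (by omega)) g hg
    have h3 : d - 3 = 0 := by omega
    rw [h3]
    simpa using h2
  · obtain ⟨e, rfl⟩ := Nat.exists_eq_add_of_le' h
    have h2 := Pool.Agent.OW.main k e G x hx hd hyp g hg
    have h3 : e + 3 - 3 = e := by omega
    have h4 : e + 3 - 2 = e + 1 := by omega
    rw [h3, h4]
    exact h2

end Pool.Agent.Results.MP_178833_al.OddActionWidth
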