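import Pool.Agent.Helper26.SolvWidth

/-!
# Bounded commutator width of `2^(d-3)`-th powers in free solvable groups
-/

namespace Pool.Agent.Results.MP_178833_al.PowerWidth

theorem result :
    ∀ k d : ℕ, ∃ N : ℕ,
      ∀ g : FreeGroup (Fin k),
        g ∈ derivedSeries (FreeGroup (Fin k)) 1 →
        ∃ a b : Fin N → FreeGroup (Fin k),
          g ^ (2 ^ (d - 3)) *
            ((List.ofFn (fun i : Fin N => a i * b i * (a i)⁻¹ * (b i)⁻¹)).prod)⁻¹ ∈
              derivedSeries (FreeGroup (Fin k)) d :=
  fun k d => Pool.Agent.Helper26.CW.freeGroup_width k d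

end Pool.Agent.Results.MP_178833_al.PowerWidth
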